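import Pool.Agent.W935.SK.Stm

/-! Project SK, part PRIME: certificates outside a small proportion of the residue classes. -/

set_option autoImplicit false

namespace Pool.Agent.W571.SK

open Polynomial Finset Pool.Agent.H884R2.Sko Pool.Agent.H692R2.USS Pool.Agent.W935.SK
open scoped Classical

section ring

variable {R : Type*} [CommRing R]

/-- the shift over a commutative ring -/
def sh (R : Type*) [CommRing R] : (ℕ → R) →ₗ[R] (ℕ → R) where
  toFun w := fun n => w (n + 1)
  map_add' _ _ := rfl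
  map_smul' _ _ := rfl

theorem sh_pow (k : ℕ) (w : ℕ → R) (n : ℕ) : ((sh R) ^ k) w n = w (n + k) := by
  induction k generalizing w n with
  | zero => simp
  | succ k ih =>
    rw [pow_succ, Module.End.mul_apply, ih]
    show w (n + k + 1) = _
    rw [add_assoc]

theorem killed_chi {d : ℕ} (c e : Fin d → R) : (aeval (sh R) (chi c)) (seq c e) = 0 := by
  funext n
  unfold chi
  rw [map_sub, map_pow, aeval_X, map_sum, LinearMap.sub_apply, Pi.sub_apply, sh_pow,
    LinearMap.sum_apply, Finset.sum_apply, seq_sol, Pi.zero_apply, sub_eq_zero]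
  refine Finset.sum_congr rfl fun i _ => ?_
  rw [map_mul, map_pow, aeval_X, aeval_C, Module.End.mul_apply, Module.algebraMap_end_apply,
    Pi.smul_apply, sh_pow, smul_eq_mul]

theorem periodic {d : ℕ} (c e : Fin d → R) (T : ℕ) (h : chi c ∣ X ^ T - 1) (n : ℕ) :
    seq c e (n + T) = seq c e n := by
  obtain ⟨g, hg⟩ := h
  have h1 : (aeval (sh R) (X ^ T - 1 : R[X])) (seq c e) = 0 := by
    rw [hg, mul_comm, map_mul, Module.End.mul_apply, killed_chi, map_zero]
  have h2 := congrFun h1 n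
  rw [map_sub, map_pow, aeval_X, map_one, LinearMap.sub_apply, Pi.sub_apply, sh_pow,
    Module.End.one_apply, Pi.zero_apply, sub_eq_zero] at h2
  exact h2

theorem seq_lin {d : ℕ} (c a : Fin d → R) (n : ℕ) :
    seq c a n = ∑ j, seq c (Pi.single j 1) n * a j := by
  symm
  apply eq_seq c a (fun n => ∑ j, seq c (Pi.single j 1) n * a j)
  · intro n
    simp only [seq_sol c _ n, Finset.sum_mul, Finset.mul_sum]
    rw [Finset.sum_comm]
    refine Finset.sum_congr rfl fun i _ => ?_
    refine Finset.sum_congr rfl fun j _ => ?_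
    ring
  · intro i
    rw [Finset.sum_eq_single i]
    · rw [seq_init, Pi.single_eq_same, one_mul]
    · intro j _ hj
      rw [seq_init, Pi.single_eq_of_ne (Ne.symm hj), zero_mul]
    · intro h
      exact absurd (Finset.mem_univ i) h

theorem seq_shift {d : ℕ} (c e : Fin d → R) (n b : ℕ) :
    seq c e (n + b) = seq c (fun i => seq c e (n + i)) b := by
  apply eq_seq c (fun i => seq c e (n + i)) (fun b => seq c e (n + b))
  · intro m
    show seq c e (n + (m + d)) = _
    rw [← add_assoc, seq_sol]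
    refine Finset.sum_congr rfl fun i _ => ?_
    rw [add_assoc]
  · intro i
    rfl

theorem dvd_of [Nontrivial R] {d : ℕ} (hd : 1 ≤ d) (c : Fin d → R) (b : ℕ) (r : R)
    (h : ∀ j : Fin d, seq c (Pi.single j 1) b = r * seq c (Pi.single j 1) 0) :
    chi c ∣ X ^ b - C r := by
  have hm := chi_monic c
  rw [← Polynomial.modByMonic_eq_zero_iff_dvd hm]
  set Q := (X ^ b - C r) %ₘ chi c with hQ
  have hdeg : Q.degree < d := by
    have h1 := Polynomial.degree_modByMonic_lt (X ^ b - C r) hm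
    have h2 : (chi c).degree = d := by
      rw [Polynomial.degree_eq_natDegree hm.ne_zero, chi_natDegree]
    rwa [h2] at h1
  have hnat : Q.natDegree < d := by
    by_cases h0 : Q = 0
    · rw [h0, natDegree_zero]
      omega
    · exact (Polynomial.natDegree_lt_iff_degree_lt h0).2 hdeg
  ext i
  rw [coeff_zero]
  by_cases hi : i < d
  · set w := seq c (Pi.single (⟨i, hi⟩ : Fin d) 1) with hw
    have h1 : (aeval (sh R) (X ^ b - C r)) w 0 = 0 := by
      rw [map_sub, map_pow, aeval_X, aeval_C, LinearMap.sub_apply, Pi.sub_apply, sh_pow,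
        Module.algebraMap_end_apply, Pi.smul_apply, smul_eq_mul, zero_add]
      exact sub_eq_zero.2 (h ⟨i, hi⟩)
    have h2 : (aeval (sh R) Q) w 0 = 0 := by
      have h3 := Polynomial.modByMonic_add_div (X ^ b - C r) (chi c)
      rw [← h3, map_add, LinearMap.add_apply, Pi.add_apply, mul_comm, map_mul,
        Module.End.mul_apply, killed_chi, map_zero, Pi.zero_apply, add_zero] at h1
      exact h1
    rw [aeval_eq_sum_range' hnat, LinearMap.sum_apply, Finset.sum_apply,
      Finset.sum_eq_single i] at h2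
    · rw [LinearMap.smul_apply, Pi.smul_apply, sh_pow, smul_eq_mul, zero_add] at h2
      have h4 : w i = 1 := by
        have h5 := seq_init c (Pi.single (⟨i, hi⟩ : Fin d) 1) ⟨i, hi⟩
        rw [Pi.single_eq_same] at h5
        exact h5
      rw [h4, mul_one] at h2
      exact h2
    · intro k hk hki
      rw [LinearMap.smul_apply, Pi.smul_apply, sh_pow, smul_eq_mul, zero_add]
      have hkd := Finset.mem_range.1 hk
      have h4 : w k = 0 := by
        have h5 := seq_init c (Pi.single (⟨i, hi⟩ : Fin d) 1) ⟨k, hkd⟩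
        rw [Pi.single_eq_of_ne (fun h6 => hki (congrArg Fin.val h6))] at h5
        exact h5
      rw [h4, mul_zero]
    · intro h5
      exact absurd (Finset.mem_range.2 hi) h5
  · apply coeff_eq_zero_of_degree_lt
    refine hdeg.trans_le ?_
    exact_mod_cast not_lt.1 hi

end ring

/-- hyperplanes of `{y 0 = 0}` -/
theorem card_plane (p : ℕ) [Fact p.Prime] (d : ℕ) (g : Fin (d + 2) → ZMod p)
    (hg : ∃ j, j ≠ 0 ∧ g j ≠ 0) :
    ((univ : Finset (Fin (d + 2) → ZMod p)).filter
      (fun y => y 0 = 0 ∧ ∑ j, g j * y j = 0)).card ≤ p ^ d := by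
  obtain ⟨j, hj, hgj⟩ := hg
  obtain ⟨j, rfl⟩ := Fin.exists_succ_eq_of_ne_zero hj
  let L : (Fin (d + 1) → ZMod p) →ₗ[ZMod p] ZMod p :=
    { toFun := fun z => ∑ i, g i.succ * z i
      map_add' := fun x y => by
        simp only [Pi.add_apply, mul_add, Finset.sum_add_distrib]
      map_smul' := fun t x => by
        simp only [Pi.smul_apply, smul_eq_mul, RingHom.id_apply, Finset.mul_sum]
        refine Finset.sum_congr rfl fun i _ => ?_
        ring }
  have hL : ∃ v, L v ≠ 0 := by
    refine ⟨Pi.single j 1, ?_⟩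
    show ∑ i, g i.succ * (Pi.single j 1 : Fin (d + 1) → ZMod p) i ≠ 0
    rw [Finset.sum_eq_single j]
    · rw [Pi.single_eq_same, mul_one]
      exact hgj
    · intro i _ hi
      rw [Pi.single_eq_of_ne hi, mul_zero]
    · intro h
      exact absurd (Finset.mem_univ j) h
  have h1 := card_ker L hL
  rw [ZMod.card, pow_succ] at h1
  have h2 : (univ.filter (fun v => L v = 0)).card = p ^ d :=
    Nat.eq_of_mul_eq_mul_right (Fact.out : p.Prime).pos h1
  rw [← h2]
  refine Finset.card_le_card_of_injOn (fun y => Fin.tail y) ?_ ?_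
  · intro y hy
    have hy' := (Finset.mem_filter.1 hy).2
    refine Finset.mem_filter.2 ⟨Finset.mem_univ _, ?_⟩
    have h3 := hy'.2
    rw [Fin.sum_univ_succ, hy'.1, mul_zero, zero_add] at h3
    exact h3
  · intro y hy y' hy' h
    have h3 := (Finset.mem_filter.1 hy).2.1
    have h4 := (Finset.mem_filter.1 hy').2.1
    rw [← Fin.cons_self_tail y, ← Fin.cons_self_tail y', h3, h4]
    congr 1

theorem prime_ (h : S_E1) : S_PRIME := by
  intro d c hd hc0 hsq hX l N hl
  obtain ⟨d, rfl⟩ : ∃ d', d = d' + 2 := ⟨d - 2, by omega⟩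
  obtain ⟨p, hp, hNp, hpc, T, hT, hlT, hdvd⟩ := h (d + 2) c (by omega) hc0 hsq l (max N 3) hl
  refine ⟨p, hp, (le_max_left N 3).trans_lt hNp, hpc, ?_⟩
  have hp3 : 3 ≤ p := ((le_max_right N 3).trans_lt hNp).le
  have : Fact p.Prime := ⟨hp⟩
  set y : ℕ → Fin (d + 2) → ℤ := fun n j => seq c (Pi.single j 1) n with hy
  set cp : Fin (d + 2) → ZMod p := fun i => (c i : ZMod p) with hcp
  have hycast : ∀ n j, ((y n j : ℤ) : ZMod p) = seq cp (Pi.single j 1) n := by
    intro n j
    have h1 := map_seq (Int.castRingHom (ZMod p)) c (Pi.single j 1) n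
    have h2 : (fun i => (Int.castRingHom (ZMod p)) ((Pi.single j 1 : Fin (d + 2) → ℤ) i)) =
        (Pi.single j 1 : Fin (d + 2) → ZMod p) := by
      funext i
      by_cases hi : i = j
      · subst hi
        simp
      · rw [Pi.single_eq_of_ne hi, Pi.single_eq_of_ne hi, map_zero]
    rw [h2] at h1
    exact h1
  have hy0 : ∀ j, y 0 j = if j = 0 then 1 else 0 := by
    intro j
    show seq c (Pi.single j 1) ((0 : Fin (d + 2)) : ℕ) = _
    rw [seq_init]
    by_cases hj : j = 0
    · subst hj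
      simp
    · rw [if_neg hj, Pi.single_eq_of_ne (Ne.symm hj)]
  -- the least `b`
  have hex : ∃ b, 1 ≤ b ∧ ∀ j, j ≠ 0 → (p : ℤ) ∣ y b j := by
    refine ⟨T, hT, fun j hj => ?_⟩
    rw [← ZMod.intCast_zmod_eq_zero_iff_dvd, hycast]
    have h1 := periodic cp (Pi.single j 1) T hdvd 0
    rw [zero_add] at h1
    rw [h1, ← hycast, hy0, if_neg hj]
    simp
  set b := Nat.find hex with hb
  obtain ⟨hb1, hbd⟩ : 1 ≤ b ∧ ∀ j, j ≠ 0 → (p : ℤ) ∣ y b j := Nat.find_spec hex
  have hbT : b ≤ T := by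
    refine Nat.find_min' hex ⟨hT, fun j hj => ?_⟩
    rw [← ZMod.intCast_zmod_eq_zero_iff_dvd, hycast]
    have h1 := periodic cp (Pi.single j 1) T hdvd 0
    rw [zero_add] at h1
    rw [h1, ← hycast, hy0, if_neg hj]
    simp
  have hmin : ∀ n, 0 < n → n < b → ∃ j, j ≠ 0 ∧ ((y n j : ℤ) : ZMod p) ≠ 0 := by
    intro n hn hnb
    have h1 := Nat.find_min hex hnb
    by_contra hcon
    push Not at hcon
    refine h1 ⟨hn, fun j hj => ?_⟩
    rw [← ZMod.intCast_zmod_eq_zero_iff_dvd]
    exact hcon j hj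
  -- `lam`
  have hlam : ¬ (p : ℤ) ∣ y b 0 := by
    intro h0
    have hz : ∀ e : Fin (d + 2) → ZMod p, seq cp e b = 0 := by
      intro e
      rw [seq_lin]
      refine Finset.sum_eq_zero fun j _ => ?_
      rw [← hycast]
      have h1 : (p : ℤ) ∣ y b j := by
        by_cases hj : j = 0
        · rw [hj]
          exact h0
        · exact hbd j hj
      rw [(ZMod.intCast_zmod_eq_zero_iff_dvd _ _).2 h1, zero_mul]
    have hper : ∀ k, seq cp (Pi.single 0 1) (k * T) = 1 := by
      intro k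
      induction k with
      | zero =>
        rw [zero_mul, ← hycast, hy0, if_pos rfl]
        simp
      | succ k ih => rw [add_mul, one_mul, periodic cp _ T hdvd, ih]
    have h2 := hper b
    have h3 : b * T = (b * T - b) + b := by
      have : b ≤ b * T := Nat.le_mul_of_pos_right b hT
      omega
    rw [h3, seq_shift, hz] at h2
    exact zero_ne_one h2
  -- `v`
  obtain ⟨j1, hj1, hyj1⟩ : ∃ j, j ≠ 0 ∧ y b j ≠ 0 := by
    by_contra hcon
    push Not at hcon
    refine hX b hb1 (y b 0) (dvd_of (by omega) c b (y b 0) fun j => ?_)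
    have h1 : seq c (Pi.single j 1) 0 = y 0 j := rfl
    rw [h1, hy0]
    by_cases hj : j = 0
    · rw [if_pos hj, mul_one, hj]
    · rw [if_neg hj, mul_zero]
      exact hcon j hj
  have hvex : ∃ v, ∃ j, j ≠ 0 ∧ ¬ (p : ℤ) ^ (v + 1) ∣ y b j := by
    refine ⟨(y b j1).natAbs, j1, hj1, fun h1 => ?_⟩
    have h2 := Int.natAbs_dvd_natAbs.2 h1
    rw [Int.natAbs_pow, Int.natAbs_natCast] at h2
    have h3 := Nat.le_of_dvd (Int.natAbs_pos.2 hyj1) h2
    have h4 : (y b j1).natAbs < p ^ (y b j1).natAbs := Nat.lt_pow_self hp.one_lt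
    have h5 : p ^ (y b j1).natAbs ≤ p ^ ((y b j1).natAbs + 1) :=
      Nat.pow_le_pow_right hp.pos (Nat.le_succ _)
    omega
  set v := Nat.find hvex with hv
  obtain ⟨j0, hj0, hvj0⟩ : ∃ j, j ≠ 0 ∧ ¬ (p : ℤ) ^ (v + 1) ∣ y b j := Nat.find_spec hvex
  have hv1 : 1 ≤ v := by
    by_contra hcon
    have h0 : v = 0 := by omega
    rw [h0, zero_add, pow_one] at hvj0
    exact hvj0 (hbd j0 hj0)
  have hvd : ∀ j, j ≠ 0 → (p : ℤ) ^ v ∣ y b j := by
    have h1 := Nat.find_min hvex (show v - 1 < v by omega)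
    push Not at h1
    rw [Nat.sub_add_cancel hv1] at h1
    exact h1
  have hβ : ∀ j, ∃ β : ℤ, (j = 0 → β = 0) ∧ (j ≠ 0 → y b j = (p : ℤ) ^ v * β) := by
    intro j
    by_cases hj : j = 0
    · exact ⟨0, fun _ => rfl, fun h => absurd hj h⟩
    · obtain ⟨β, hβ⟩ := hvd j hj
      exact ⟨β, fun h => absurd h hj, fun _ => hβ⟩
  choose β hβ0 hβ1 using hβ
  have hpv : (p : ℤ) ^ v ≠ 0 := pow_ne_zero _ (by exact_mod_cast hp.ne_zero)
  have hβj0 : ((β j0 : ℤ) : ZMod p) ≠ 0 := by
    intro h1
    rw [ZMod.intCast_zmod_eq_zero_iff_dvd] at h1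
    apply hvj0
    rw [hβ1 j0 hj0, pow_succ]
    exact mul_dvd_mul_left _ h1
  -- the exceptional set
  set Ω : Finset (Fin (d + 2) → ZMod p) :=
    ((Finset.Ioo 0 b).biUnion fun n => univ.filter
      (fun z => z 0 = 0 ∧ ∑ j, ((y n j : ℤ) : ZMod p) * z j = 0)) ∪
    univ.filter (fun z => z 0 = 0 ∧ ∑ j, ((β j : ℤ) : ZMod p) * z j = 0) with hΩ
  refine ⟨b, v, y b 0, Ω, ?_, ?_⟩
  · have h1 : Ω.card ≤ b * p ^ d := by
      rw [hΩ]
      refine (Finset.card_union_le _ _).trans ?_
      have h2 : ((Finset.Ioo 0 b).biUnion fun n => univ.filter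
          (fun z : Fin (d + 2) → ZMod p => z 0 = 0 ∧
            ∑ j, ((y n j : ℤ) : ZMod p) * z j = 0)).card ≤ (b - 1) * p ^ d := by
        refine (Finset.card_biUnion_le_card_mul _ _ (p ^ d) fun n hn => ?_).trans ?_
        · rw [Finset.mem_Ioo] at hn
          exact card_plane p d _ (hmin n hn.1 hn.2)
        · rw [Nat.card_Ioo, Nat.sub_zero]
      have h3 := card_plane p d (fun j => ((β j : ℤ) : ZMod p)) ⟨j0, hj0, hβj0⟩
      have h4 : b * p ^ d = (b - 1) * p ^ d + p ^ d := by
        obtain ⟨b', hb'⟩ : ∃ b', b = b' + 1 := ⟨b - 1, by omega⟩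
        rw [hb', Nat.add_sub_cancel]
        ring
      rw [h4]
      exact add_le_add h2 h3
    calc l * Ω.card ≤ l * (T * p ^ d) :=
          Nat.mul_le_mul_left _ (h1.trans (Nat.mul_le_mul_right _ hbT))
      _ = (l * T) * p ^ d := by ring
      _ ≤ p * p ^ d := Nat.mul_le_mul_right _ hlT
      _ = p ^ (d + 2 - 1) := by
          rw [show d + 2 - 1 = d + 1 by omega, pow_succ]
          ring
  · intro a ha hna
    have ha0 : a 0 = 0 := by
      have h1 : seq c a ((0 : Fin (d + 2)) : ℕ) = a 0 := seq_init c a 0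
      rw [← h1]
      exact ha
    have hcast : ∀ n, ((seq c a n : ℤ) : ZMod p) = ∑ j, ((y n j : ℤ) : ZMod p) * (a j : ZMod p) := by
      intro n
      rw [seq_lin]
      push_cast
      rfl
    rw [hΩ, Finset.mem_union, Finset.mem_biUnion, not_or] at hna
    obtain ⟨hn1, hn2⟩ := hna
    have hz0 : ((a 0 : ℤ) : ZMod p) = 0 := by rw [ha0, Int.cast_zero]
    refine ⟨hp, hp3, hb1, hv1, hlam, ?_, ha, ?_, ?_⟩
    · intro e
      have h1 : seq c e 0 = e 0 := seq_init c e 0
      rw [h1, seq_lin]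
      rw [Fin.sum_univ_succ]
      have h2 : seq c (Pi.single 0 1) b * e 0 +
          ∑ i : Fin (d + 1), seq c (Pi.single i.succ 1) b * e i.succ - y b 0 * e 0 =
          ∑ i : Fin (d + 1), seq c (Pi.single i.succ 1) b * e i.succ := by
        show y b 0 * e 0 + _ - y b 0 * e 0 = _
        ring
      rw [h2]
      refine Finset.dvd_sum fun i _ => ?_
      exact Dvd.dvd.mul_right (hvd i.succ (Fin.succ_ne_zero i)) _
    · intro n hn hnb hdv
      apply hn1
      refine ⟨n, Finset.mem_Ioo.2 ⟨hn, hnb⟩, Finset.mem_filter.2 ⟨Finset.mem_univ _, hz0, ?_⟩⟩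
      rw [← hcast]
      exact (ZMod.intCast_zmod_eq_zero_iff_dvd _ _).2 hdv
    · intro hdv
      apply hn2
      refine Finset.mem_filter.2 ⟨Finset.mem_univ _, hz0, ?_⟩
      have h1 : seq c a b = (p : ℤ) ^ v * ∑ j, β j * a j := by
        rw [seq_lin, Finset.mul_sum]
        refine Finset.sum_congr rfl fun j _ => ?_
        by_cases hj : j = 0
        · rw [hj, ha0]
          ring
        · have h2 : seq c (Pi.single j 1) b = (p : ℤ) ^ v * β j := hβ1 j hj
          rw [h2]
          ring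
      rw [h1, pow_succ] at hdv
      have h2 := (mul_dvd_mul_iff_left hpv).1 hdv
      have h3 := (ZMod.intCast_zmod_eq_zero_iff_dvd _ _).2 h2
      push_cast at h3
      exact h3

end Pool.Agent.W571.SK
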